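import Pool.Agent.Run7.h932.RG.Stm2
import Pool.Agent.N404.LF.Asy

set_option autoImplicit false

/-!
# Project RG2 (helper932), piece NUM2: numbers in the range of Q1
-/

namespace Run7.h300.RG

open Run7.h932.RG Filter

/-- the numbers which depend on `q` only; `x = q`, `y = q - r` -/
theorem numq {r : ℝ} {x y η D : ℝ} (hr : 0 ≤ r) (hη : 0 < η) (hη1 : η < 1) (hy : y = x - r)
    (h1 : 10000 * (r + 1) / η ≤ x) (hD : 0 ≤ D) (h2 : D / x ^ 2 ≤ η / (3000 * (r + 1)))
    (h3 : D ≤ 2 * x * Real.log x - 3 * x) :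
    3000 ≤ y ∧ (y / (y - 1)) ^ 2 * (D / y + 1 / 2) ≤ 2 * Real.log y - 2 ∧ x ≤ 2 * y ∧
      (D / 2 + 1) * (r / (x * (y - 1))) + r / y + 2 / (y - 1) ≤ η / 4 := by
  have hr1 : 0 < r + 1 := by linarith
  have hx1 : 10000 * (r + 1) ≤ η * x := by
    rw [div_le_iff₀ hη] at h1
    linarith
  have hx2 : 10000 * (r + 1) ≤ x := by
    have hx0 : 0 ≤ x := by
      by_contra hc
      push Not at hc
      nlinarith
    nlinarith
  have hx0 : 0 < x := by linarith
  have hD2 : D * (3000 * (r + 1)) ≤ η * x ^ 2 := by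
    rw [div_le_div_iff₀ (by positivity) (by positivity)] at h2
    linarith
  have hyx : x ≤ 2 * y := by rw [hy]; linarith
  have hy3 : 3000 ≤ y := by rw [hy]; linarith
  have hy0 : 0 < y := by linarith
  have hy1 : 0 < y - 1 := by linarith
  have hy4 : x ≤ 4 * (y - 1) := by linarith
  have hDx : D / x ≤ 2 * Real.log x - 3 := by
    rw [div_le_iff₀ hx0]
    linarith
  have hlog : Real.log x - Real.log y ≤ r / y := by
    rw [← Real.log_div hx0.ne' hy0.ne']
    have := Real.log_le_sub_one_of_pos (show 0 < x / y by positivity)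
    have e : x / y - 1 = r / y := by
      have hr2 : r = x - y := by linarith
      rw [hr2, sub_div, div_self hy0.ne']
    linarith
  have hry : r / y ≤ η / 1000 := by
    rw [div_le_div_iff₀ hy0 (by norm_num)]
    nlinarith
  refine ⟨hy3, ?_, hyx, ?_⟩
  · have a1 : (y / (y - 1)) ^ 2 ≤ 1 + 3 / y := by
      rw [div_pow, div_le_iff₀ (by positivity)]
      have : (1 + 3 / y) * (y - 1) ^ 2 = y ^ 2 + (y ^ 2 - 5 * y + 3) / y := by
        field_simp
        ring
      rw [this]
      have : 0 ≤ (y ^ 2 - 5 * y + 3) / y := by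
        apply div_nonneg _ hy0.le
        nlinarith
      linarith
    have a2 : D / y ≤ D / x + 2 * r * (D / x ^ 2) := by
      have e : D / y = D / x + r * (D / (x * y)) := by
        rw [hy] at hy0 ⊢
        field_simp
        ring
      rw [e]
      have : D / (x * y) ≤ 2 * (D / x ^ 2) := by
        rw [mul_div_assoc', div_le_div_iff₀ (by positivity) (by positivity)]
        have := mul_le_mul_of_nonneg_left hyx (show 0 ≤ D * x by positivity)
        nlinarith
      have := mul_le_mul_of_nonneg_left this hr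
      linarith
    have a3 : 3 / y * (D / y) ≤ 12 * (D / x ^ 2) := by
      rw [div_mul_div_comm, mul_div_assoc', div_le_div_iff₀ (by positivity) (by positivity)]
      have : x ^ 2 ≤ 4 * (y * y) := by nlinarith
      have := mul_le_mul_of_nonneg_left this (show 0 ≤ D by positivity)
      nlinarith
    have a4 : (2 * r + 12) * (D / x ^ 2) ≤ 1 / 100 := by
      have h5 : D / x ^ 2 ≤ 1 / (3000 * (r + 1)) := by
        refine h2.trans ?_
        gcongr
      have h6 := mul_le_mul_of_nonneg_left h5 (show 0 ≤ 2 * r + 12 by linarith)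
      refine h6.trans ?_
      rw [mul_one_div, div_le_div_iff₀ (by positivity) (by norm_num)]
      nlinarith
    have a5 : 3 / y ≤ 1 / 1000 := by
      rw [div_le_div_iff₀ hy0 (by norm_num)]
      linarith
    have hD0 : 0 ≤ D / y := by positivity
    calc (y / (y - 1)) ^ 2 * (D / y + 1 / 2) ≤ (1 + 3 / y) * (D / y + 1 / 2) :=
          mul_le_mul_of_nonneg_right a1 (by linarith)
      _ = D / y + 3 / y * (D / y) + 1 / 2 + 3 / y / 2 := by ring
      _ ≤ 2 * Real.log y - 2 := by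
          have : r / y ≤ 1 / 1000 := hry.trans (by linarith)
          linarith
  · have b1 : (D / 2 + 1) * (r / (x * (y - 1))) ≤ η / 12 := by
      rw [mul_div_assoc', div_le_div_iff₀ (by positivity) (by norm_num)]
      have c1 : D * r ≤ η * x ^ 2 / 3000 := by nlinarith
      have c2 : r * 10000 ≤ η * x := by nlinarith
      have c3 : x ^ 2 ≤ 4 * (x * (y - 1)) := by nlinarith
      have c4 : r * 1 ≤ η * x * x / 10000 := by nlinarith [mul_pos hη hx0]
      have c5 := mul_le_mul_of_nonneg_left c3 hη.le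
      nlinarith
    have b2 : 2 / (y - 1) ≤ η / 12 := by
      rw [div_le_div_iff₀ hy1 (by norm_num)]
      nlinarith
    linarith

/-- The piece NUM2. -/
theorem t_NUM2 : S_NUM2 := by
  intro ε η c r hε hη hη1 hc hc1
  have hr1 : (0 : ℝ) < (r : ℝ) + 1 := by positivity
  obtain ⟨Δ0, hΔ0⟩ := Pool.Agent.N404.LF.proof_ASY ε (η / (2000 * ((r : ℝ) + 1))) hε (by positivity)
  refine ⟨max Δ0 1, fun Δ q hΔ hq => ?_⟩
  obtain ⟨-, h3, h4⟩ := hΔ0 Δ q ((le_max_left _ _).trans hΔ) hq
  have hΔ1 : 1 ≤ Δ := (le_max_right _ _).trans hΔ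
  have hq0 : (0 : ℝ) < q := by
    rcases Nat.eq_zero_or_pos q with h | h
    · subst h
      rw [Nat.cast_zero] at h3
      simp only [mul_zero, Real.log_zero, sub_zero] at h3
      have : (1 : ℝ) ≤ Δ := by exact_mod_cast hΔ1
      linarith
    · exact_mod_cast h
  have h5 : 0 ≤ 3 * (Δ : ℝ) / (q : ℝ) ^ 2 := by positivity
  have h6 : 0 ≤ 5 / (q : ℝ) := by positivity
  have h7 : 10000 * ((r : ℝ) + 1) / η ≤ q := by
    have : 5 / (q : ℝ) ≤ η / (2000 * ((r : ℝ) + 1)) := by linarith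
    rw [div_le_div_iff₀ hq0 (by positivity)] at this
    rw [div_le_iff₀ hη]
    linarith
  have h8 : (Δ : ℝ) / (q : ℝ) ^ 2 ≤ η / (3000 * ((r : ℝ) + 1)) := by
    have e : 3 * (Δ : ℝ) / (q : ℝ) ^ 2 = 3 * ((Δ : ℝ) / (q : ℝ) ^ 2) := by ring
    have e2 : η / (2000 * ((r : ℝ) + 1)) = 3 / 2 * (η / (3000 * ((r : ℝ) + 1))) := by
      field_simp
      norm_num
    have e3 : 0 ≤ η / (3000 * ((r : ℝ) + 1)) := by positivity
    linarith
  have hrq : r ≤ q := by
    have : (r : ℝ) ≤ q := by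
      refine le_trans ?_ h7
      rw [le_div_iff₀ hη]
      nlinarith
    exact_mod_cast this
  obtain ⟨k1, k2, k3, k4⟩ := numq (r := r) (x := q) (y := ((q - r : ℕ) : ℝ)) (η := η) (D := Δ)
    (Nat.cast_nonneg r) hη hη1 (Nat.cast_sub hrq) h7 (Nat.cast_nonneg Δ) h8 h3
  refine ⟨hΔ1, by exact_mod_cast k1, k2, ?_⟩
  set x : ℝ := (q : ℝ) with hx
  set y : ℝ := ((q - r : ℕ) : ℝ) with hy
  have hyr : y = x - r := Nat.cast_sub hrq
  have hy0 : 0 < y := by linarith
  have hy1 : 0 < y - 1 := by linarith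
  have hly : 0 ≤ Real.log y := Real.log_nonneg (by linarith)
  have hev : ∀ᶠ n : ℕ in atTop, (2 * Real.log y + 1) * 2 / η ≤ (n : ℝ) ^ (3 * c / 20) :=
    ((tendsto_rpow_atTop (by positivity)).comp tendsto_natCast_atTop_atTop).eventually_ge_atTop _
  obtain ⟨n₀, hn₀⟩ := eventually_atTop.1 hev
  refine ⟨max n₀ 1, fun n m m' z hn hm' hm hz => ?_⟩
  have hn1 : 1 ≤ n := (le_max_right _ _).trans hn
  have hn2 := hn₀ n ((le_max_left _ _).trans hn)
  have hnR : (1 : ℝ) ≤ n := by exact_mod_cast hn1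
  have hn0 : (0 : ℝ) < n := by linarith
  -- the small powers of `n`
  have p1 : (n : ℝ) ^ (1 - 3 * c / 10) ≤ (n : ℝ) ^ (1 - 3 * c / 20) :=
    Real.rpow_le_rpow_of_exponent_le hnR (by linarith)
  have p2 : (2 * Real.log y + 1) * (n : ℝ) ^ (1 - 3 * c / 20) ≤ η / 2 * n := by
    have e1 : (n : ℝ) ^ (1 - 3 * c / 20) * (n : ℝ) ^ (3 * c / 20) = n := by
      rw [← Real.rpow_add hn0]
      simp
    have e2 : 0 < (n : ℝ) ^ (1 - 3 * c / 20) := by positivity
    rw [div_le_iff₀ hη] at hn2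
    have e3 := mul_le_mul_of_nonneg_right hn2 e2.le
    nlinarith
  have hexp : (m : ℝ) * (r / (x * (y - 1))) - η * n + n * (r / y) + z * Real.log y ≤
      -(2 * n) / (y - 1) - (n : ℝ) ^ (1 - 3 * c / 10) := by
    have q1 : (m : ℝ) * (r / (x * (y - 1))) ≤ ((Δ : ℝ) / 2 + 1) * n * (r / (x * (y - 1))) :=
      mul_le_mul_of_nonneg_right hm (by positivity)
    have q2 : (z : ℝ) * Real.log y ≤ 2 * (n : ℝ) ^ (1 - 3 * c / 20) * Real.log y :=
      mul_le_mul_of_nonneg_right hz hly
    have q3 := mul_le_mul_of_nonneg_left k4 hn0.le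
    have q4 : -(2 * (n : ℝ)) / (y - 1) = -(n * (2 / (y - 1))) := by ring
    rw [q4]
    nlinarith
  -- the factors
  have hx0 : 0 < x := hq0
  have hx1 : 1 < x := by linarith
  have f0 : 0 ≤ 1 - 1 / x := by
    rw [sub_nonneg, div_le_one hx0]
    exact hx1.le
  have f1 : 0 < 1 - 1 / y := by
    rw [sub_pos, div_lt_one hy0]
    linarith
  have g1 : 1 - 1 / x ≤ (1 - 1 / y) * Real.exp (r / (x * (y - 1))) := by
    have e : 1 - 1 / x = (1 - 1 / y) * (r / (x * (y - 1)) + 1) := by
      rw [hyr] at hy0 hy1 ⊢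
      field_simp
      ring
    rw [e]
    exact mul_le_mul_of_nonneg_left (Real.add_one_le_exp _) f1.le
  have g2 : (1 - η) * x ≤ y * Real.exp (-η + r / y) := by
    have e : x = y * (r / y + 1) := by
      field_simp
      linarith
    have e1 : x ≤ y * Real.exp (r / y) := by
      calc x = y * (r / y + 1) := e
        _ ≤ y * Real.exp (r / y) := mul_le_mul_of_nonneg_left (Real.add_one_le_exp _) hy0.le
    have e2 : 1 - η ≤ Real.exp (-η) := by
      have := Real.add_one_le_exp (-η)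
      linarith
    calc (1 - η) * x ≤ Real.exp (-η) * (y * Real.exp (r / y)) :=
          mul_le_mul e2 e1 hx0.le (Real.exp_pos _).le
      _ = y * Real.exp (-η + r / y) := by rw [Real.exp_add]; ring
  have g3 : Real.exp (-1 / (y - 1)) ≤ 1 - 1 / y := by
    have e : (1 - 1 / y)⁻¹ = 1 / (y - 1) + 1 := by
      field_simp
      ring
    have e1 : (1 - 1 / y)⁻¹ ≤ Real.exp (1 / (y - 1)) := by
      rw [e]
      exact Real.add_one_le_exp _
    have e2 : Real.exp (-1 / (y - 1)) = (Real.exp (1 / (y - 1)))⁻¹ := by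
      rw [← Real.exp_neg]
      congr 1
      ring
    rw [e2]
    exact inv_le_of_inv_le₀ f1 e1
  have hL : (1 - 1 / x) ^ m * ((1 - η) * x) ^ n * y ^ z ≤
      (1 - 1 / y) ^ m * y ^ n * Real.exp ((m : ℝ) * (r / (x * (y - 1))) - η * n + n * (r / y) +
        z * Real.log y) := by
    have i1 : (1 - 1 / x) ^ m ≤ (1 - 1 / y) ^ m * Real.exp ((m : ℝ) * (r / (x * (y - 1)))) := by
      rw [Real.exp_nat_mul, ← mul_pow]
      exact pow_le_pow_left₀ f0 g1 m
    have i2 : ((1 - η) * x) ^ n ≤ y ^ n * Real.exp (n * (-η + r / y)) := by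
      rw [Real.exp_nat_mul, ← mul_pow]
      exact pow_le_pow_left₀ (mul_nonneg (by linarith) hx0.le) g2 n
    have i3 : y ^ z = Real.exp (z * Real.log y) := by
      rw [Real.exp_nat_mul, Real.exp_log hy0]
    calc (1 - 1 / x) ^ m * ((1 - η) * x) ^ n * y ^ z
        ≤ ((1 - 1 / y) ^ m * Real.exp ((m : ℝ) * (r / (x * (y - 1))))) *
            (y ^ n * Real.exp (n * (-η + r / y))) * Real.exp (z * Real.log y) := by
          rw [i3]
          refine mul_le_mul_of_nonneg_right ?_ (Real.exp_pos _).le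
          exact mul_le_mul i1 i2 (pow_nonneg (mul_nonneg (by linarith) hx0.le) n) (by positivity)
      _ = (1 - 1 / y) ^ m * y ^ n * (Real.exp ((m : ℝ) * (r / (x * (y - 1)))) *
            Real.exp (n * (-η + r / y)) * Real.exp (z * Real.log y)) := by ring
      _ = _ := by
          rw [← Real.exp_add, ← Real.exp_add]
          congr 2
          ring
  have hR : (1 - 1 / y) ^ m * y ^ n * Real.exp (-(2 * n) / (y - 1) -
      (n : ℝ) ^ (1 - 3 * c / 10)) ≤
      (1 - 1 / y) ^ m' * (y ^ n * Real.exp (-(n : ℝ) ^ (1 - 3 * c / 10))) := by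
    have j1 : (1 - 1 / y) ^ (m + 2 * n) ≤ (1 - 1 / y) ^ m' :=
      pow_le_pow_of_le_one f1.le (by
        have : 0 < 1 / y := by positivity
        linarith) hm'
    have j2 : Real.exp (-(2 * n) / (y - 1)) ≤ (1 - 1 / y) ^ (2 * n) := by
      have : Real.exp (-(2 * n) / (y - 1)) = Real.exp (-1 / (y - 1)) ^ (2 * n) := by
        rw [← Real.exp_nat_mul]
        congr 1
        push_cast
        ring
      rw [this]
      exact pow_le_pow_left₀ (Real.exp_pos _).le g3 _
    have e : Real.exp (-(2 * (n : ℝ)) / (y - 1) - (n : ℝ) ^ (1 - 3 * c / 10)) =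
        Real.exp (-(2 * n) / (y - 1)) * Real.exp (-(n : ℝ) ^ (1 - 3 * c / 10)) := by
      rw [← Real.exp_add]
      congr 1
    rw [e]
    calc (1 - 1 / y) ^ m * y ^ n * (Real.exp (-(2 * n) / (y - 1)) *
          Real.exp (-(n : ℝ) ^ (1 - 3 * c / 10)))
        = ((1 - 1 / y) ^ m * Real.exp (-(2 * n) / (y - 1))) *
          (y ^ n * Real.exp (-(n : ℝ) ^ (1 - 3 * c / 10))) := by ring
      _ ≤ (1 - 1 / y) ^ m' * (y ^ n * Real.exp (-(n : ℝ) ^ (1 - 3 * c / 10))) := by
          refine mul_le_mul_of_nonneg_right ?_ (by positivity)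
          refine le_trans ?_ j1
          rw [pow_add]
          exact mul_le_mul_of_nonneg_left j2 (by positivity)
  refine hL.trans (le_trans ?_ hR)
  exact mul_le_mul_of_nonneg_left (Real.exp_le_exp.2 hexp) (by positivity)

end Run7.h300.RG
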